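import Pool.Agent.H.MP_7332c2_co.E

namespace Pool.Agent.Results.MP_7332c2_co.Counter
open Pool.Agent.H.MP_7332c2_co

theorem result : ¬ ∀ (k : ℕ) (H : SimpleGraph (Fin k)) (u : Fin k), H.Connected →
    (∃ C N : ℕ, ∀ n ≥ N, maxTime (pend H u) n ≤ C) ∨
    (∃ c C : ℝ, 0 < c ∧ c ≤ C ∧ ∃ N : ℕ, ∀ n ≥ N,
      c * maxTime H n ≤ maxTime (pend H u) n ∧ (maxTime (pend H u) n : ℝ) ≤ C * maxTime H n) := by
  intro hh
  have hc : W6.Connected := by
    refine (SimpleGraph.connected_iff_exists_forall_reachable _).2 ⟨6, fun w => ?_⟩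
    by_cases e : 6 = w
    · exact e ▸ SimpleGraph.Reachable.refl _
    · refine SimpleGraph.Adj.reachable ((SimpleGraph.fromRel_adj _ _ _).2 ⟨e, Or.inl ?_⟩)
      revert w
      decide
  rcases hh 7 W6 6 hc with ⟨C, N, h⟩ | ⟨c, C, c0, -, N, h⟩
  · obtain ⟨Q, hQ⟩ : ∃ Q, Q = 5 ^ C := ⟨_, rfl⟩
    have a := lowerP (Q + N + 2) (by omega)
    have b := Nat.pow_le_pow_right (show 0 < 5 by norm_num) (h (4 * (Q + N + 2) + 3) (by omega))
    have := (a.trans b).trans_eq hQ.symm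
    clear a b hQ
    omega
  · obtain ⟨M, hM⟩ := exists_nat_ge (1 / c)
    obtain ⟨j, hj⟩ : ∃ j, j = M + N + 40 := ⟨_, rfl⟩
    have p1 : j < 2 ^ j := Nat.lt_two_pow_self
    have p2 : 2 ^ j * 2 ^ j ≤ 5 ^ j := by
      rw [← mul_pow]; exact Nat.pow_le_pow_left (by norm_num) j
    have p3 : (j + 1) * (j + 1) ≤ 5 ^ j := (Nat.mul_le_mul p1 p1).trans p2
    have p4 : M * (j + 32) < 5 ^ j := by nlinarith
    have a := lowerW (5 ^ j) (5 * 5 ^ j + 2) le_rfl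
    have b : maxTime (pend W6 6) (5 * 5 ^ j + 2) ≤ j + 2 + 30 :=
      upper (by nlinarith) (by rw [pow_add]; omega)
    have d := (h (5 * 5 ^ j + 2) (by nlinarith)).1
    have a' : ((5 ^ j : ℕ) : ℝ) ≤ maxTime W6 (5 * 5 ^ j + 2) := by exact_mod_cast a
    have b' : (maxTime (pend W6 6) (5 * 5 ^ j + 2) : ℝ) ≤ j + 32 := by exact_mod_cast b
    have p5 : (M : ℝ) * (j + 32) < (5 ^ j : ℕ) := by exact_mod_cast p4
    rw [div_le_iff₀ c0] at hM
    have : (0 : ℝ) ≤ j + 32 := by positivity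
    nlinarith

end Pool.Agent.Results.MP_7332c2_co.Counter
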